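import Pool.Agent.Helper81.KX.X4
import Pool.Agent.Helper44.KX.FamDim
import Pool.Agent.Helper80.KX.X2b
import Pool.Agent.Helper64.KX.X1bp
import Pool.Agent.Helper18.GP.Upper

/-!
# Block X4': dimensions to all orders, polynomials of growing degree
-/

set_option autoImplicit false

namespace Pool.Agent.Helper78.KX

open MeasureTheory Set Filter Topology Pool.Agent.Helper18.GP Pool.Agent.Helper82.FK
open Pool.Agent.Helper78.KD (Fam S)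

theorem block_few81 {θ : ℝ} (hθ : 1 < θ) (A k : ℕ) : ∃ (k' : ℕ) (δ₀ : ℝ), 0 < δ₀ ∧ δ₀ ≤ 1 ∧ ∀ δ : ℝ, 0 < δ → δ ≤ δ₀ →
    ∀ (H : ℕ) (c : ℤ → ℂ) (p : ℝ → ℝ), TC A δ H c p → ∀ D : ℕ, ((D : ℝ) + 1) ^ 2 * δ ≤ 1 → Few θ (k' * (H + 1)) k' D →
    ∀ t, 0 ≤ t → t ≤ 2 * A * δ → ∀ L : ℕ, L * δ ^ k ≤ 1 → ∀ (κ : ℝ) (σ : ℕ → ℝ) (a b : ℝ), 0 < κ → 1 ≤ κ * (b - a) →
      (b - a) * Real.exp (L * lam p t - 1) ≤
        (∫ x in a..b, Real.exp (t * ∑ n ∈ Finset.range L, p (κ * x * θ ^ n + σ n))) ∧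
      (∫ x in a..b, Real.exp (t * ∑ n ∈ Finset.range L, p (κ * x * θ ^ n + σ n))) ≤
        (b - a) * Real.exp (L * lam p t + 1) :=
  Pool.Agent.Helper80.KX.block_few_of A k (Pool.Agent.Helper64.KX.cluster' hθ (4 * (k + 1)))

/-- the Lipschitz constant in the class -/
theorem tc_lip {A : ℕ} {δ : ℝ} {H : ℕ} {c : ℤ → ℂ} {p : ℝ → ℝ} (h : TC A δ H c p) (hδ : 0 < δ) (hδ1 : δ ≤ 1) :
    ∃ K : ℝ, 0 ≤ K ∧ (∀ s t, |p s - p t| ≤ K * |s - t|) ∧ K * δ ^ (A + 1) ≤ 7 * A := by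
  have hnm := nm_nonneg H c
  refine ⟨2 * Real.pi * H * nm H c, by positivity, fun s t => Pool.Agent.Helper18.GP.gp_lip h.eq s t, ?_⟩
  have hinv : 1 ≤ 1 / δ := by rw [le_div_iff₀ hδ]; linarith
  have h1 : 1 + Real.log (1 / δ) ≤ 1 / δ := by
    have := Real.log_le_sub_one_of_pos (show 0 < 1 / δ by positivity)
    linarith
  have h2 : nm H c ≤ A * (1 / δ) := h.nm_le.trans (mul_le_mul_of_nonneg_left h1 (Nat.cast_nonneg A))
  have h3 : (H : ℝ) * nm H c ≤ (1 / δ) ^ A * (A * (1 / δ)) := mul_le_mul h.deg h2 hnm (by positivity)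
  have h4 : (H : ℝ) * nm H c * δ ^ (A + 1) ≤ A := by
    calc (H : ℝ) * nm H c * δ ^ (A + 1) ≤ (1 / δ) ^ A * (A * (1 / δ)) * δ ^ (A + 1) :=
          mul_le_mul_of_nonneg_right h3 (by positivity)
      _ = A := by rw [one_div, inv_pow, pow_succ]; field_simp
  have h5 : 2 * Real.pi ≤ 7 := by linarith [Real.pi_lt_d2]
  calc 2 * Real.pi * H * nm H c * δ ^ (A + 1) = 2 * Real.pi * (H * nm H c * δ ^ (A + 1)) := by ring
    _ ≤ 7 * A := mul_le_mul h5 h4 (by positivity) (by norm_num)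

theorem upper_few {θ : ℝ} (hθ : 1 < θ) (A k : ℕ) (hA : 1 ≤ A) : ∃ (k' : ℕ) (C δ₀ : ℝ), 0 < C ∧ 0 < δ₀ ∧ δ₀ ≤ 1 ∧
    ∀ δ : ℝ, 0 < δ → δ ≤ δ₀ → ∀ (H : ℕ) (c : ℤ → ℂ) (p : ℝ → ℝ), TC A δ H c p → ∀ D : ℕ, ((D : ℝ) + 1) ^ 2 * δ ≤ 1 →
    Few θ (k' * (H + 1)) k' D → ∀ t, 0 ≤ t → t ≤ A * δ → ∀ (s : ℕ → ℝ) (h : ℝ),
      dimH {x | ∃ᶠ N : ℕ in atTop, h * N ≤ Sm p θ s N x} ≤
        ENNReal.ofReal (1 - (t * h - lam p t - C * δ ^ k) / Real.log θ) := by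
  obtain ⟨k', δ₀, hδ₀0, hδ₀1, hX⟩ := block_few81 hθ A (k + A + 1)
  have hAr : (1 : ℝ) ≤ A := by exact_mod_cast hA
  have hA0 : (0 : ℝ) < A := by linarith
  have hlog : 0 < Real.log θ := Real.log_pos hθ
  have hβ : 0 < θ / (θ - 1) := div_pos (by linarith) (by linarith)
  set C₃ : ℝ := 1 + 28 * (θ / (θ - 1)) * A ^ 2 with hC₃
  have hC₃0 : 0 < C₃ := by positivity
  refine ⟨k', 2 * C₃, δ₀, by positivity, hδ₀0, hδ₀1, ?_⟩
  intro δ hδ hδ₀ H c p hTC D hD hFew t ht htA s h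
  have hδ1 : δ ≤ 1 := hδ₀.trans hδ₀1
  obtain ⟨L, hL1, hL2, hL3⟩ := choose_len hδ hδ1 (k + A + 1)
  have hL0 : (0 : ℝ) < L := by exact_mod_cast hL1
  obtain ⟨K, hK, hlip, hKA⟩ := tc_lip hTC hδ hδ1
  -- a covering by intervals
  have hcov : {x | ∃ᶠ N : ℕ in atTop, h * N ≤ Sm p θ s N x} ⊆
      ⋃ j : ℤ, {x | x ∈ Icc ((j : ℝ) / θ) ((j : ℝ) / θ + 1 / θ ^ (0 + 1)) ∧ ∃ᶠ N : ℕ in atTop,
        h * N ≤ S p (fun n x => x * θ ^ (n + 0 + 1) + s (n + 0)) N x} := by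
    intro x hx
    have hθ0 : 0 < θ := by linarith
    refine mem_iUnion.2 ⟨⌊x * θ⌋, ⟨?_, ?_⟩, hx⟩
    · rw [div_le_iff₀ hθ0]
      exact Int.floor_le _
    · rw [zero_add, pow_one, ← add_div, le_div_iff₀ hθ0]
      exact (Int.lt_floor_add_one _).le
  refine (dimH_mono hcov).trans ?_
  rw [dimH_iUnion]
  refine iSup_le fun j => ?_
  have hfam := mult_fam hθ s 0 ((j : ℝ) / θ)
  have hmain := Pool.Agent.Helper44.KX.fam_upper hfam (φ := p) (K := K) (B := A) hK hlip hTC.bd (t := t)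
    (Λ := L * lam p t + 1) ht hL1
    (fun n a b _ hab _ h1 _ => by
      rw [mult_block hθ s 0 p t L n a b]
      refine (hX δ hδ hδ₀ H c p hTC D hD hFew t ht (by nlinarith) L (hL3 δ hδ.le le_rfl) (θ ^ (n + 0 + 1))
        (fun i => s (n + i + 0)) a b (by positivity) ?_).2
      have e : b * θ ^ (n + 0 + 1) + s (n + 0) - (a * θ ^ (n + 0 + 1) + s (n + 0)) = θ ^ (n + 0 + 1) * (b - a) := by ring
      rw [← e]
      exact h1) h
  refine hmain.trans (ENNReal.ofReal_le_ofReal ?_)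
  -- the error
  have hE : 1 + 4 * K * (θ / (θ - 1)) * t ≤ L * (2 * C₃ * δ ^ k) := by
    have h1 : t ≤ A := htA.trans (by nlinarith)
    have h2 : (1 + 4 * K * (θ / (θ - 1)) * t) * δ ^ (A + 1) ≤ C₃ := by
      have h3 : δ ^ (A + 1) ≤ 1 := pow_le_one₀ hδ.le hδ1
      have h4 : 4 * K * (θ / (θ - 1)) * t * δ ^ (A + 1) = 4 * (θ / (θ - 1)) * ((K * δ ^ (A + 1)) * t) := by ring
      have h5 : (K * δ ^ (A + 1)) * t ≤ 7 * A * A := mul_le_mul hKA h1 ht (by positivity)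
      have h6 : 4 * (θ / (θ - 1)) * ((K * δ ^ (A + 1)) * t) ≤ 4 * (θ / (θ - 1)) * (7 * A * A) :=
        mul_le_mul_of_nonneg_left h5 (by positivity)
      have h7 : 4 * (θ / (θ - 1)) * (7 * A * A) = 28 * (θ / (θ - 1)) * A ^ 2 := by ring
      rw [add_mul, one_mul, hC₃]
      linarith
    have h3 : (1 + 4 * K * (θ / (θ - 1)) * t) * 1 ≤ (1 + 4 * K * (θ / (θ - 1)) * t) * (2 * L * δ ^ (k + A + 1)) :=
      mul_le_mul_of_nonneg_left hL2 (by positivity)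
    have h4 : (1 + 4 * K * (θ / (θ - 1)) * t) * (2 * L * δ ^ (k + A + 1)) =
        ((1 + 4 * K * (θ / (θ - 1)) * t) * δ ^ (A + 1)) * (2 * L * δ ^ k) := by
      rw [show k + A + 1 = k + (A + 1) by omega, pow_add]; ring
    have h5 : ((1 + 4 * K * (θ / (θ - 1)) * t) * δ ^ (A + 1)) * (2 * L * δ ^ k) ≤ C₃ * (2 * L * δ ^ k) :=
      mul_le_mul_of_nonneg_right h2 (by positivity)
    calc 1 + 4 * K * (θ / (θ - 1)) * t ≤ C₃ * (2 * L * δ ^ k) := by linarith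
      _ = L * (2 * C₃ * δ ^ k) := by ring
  have h1 : (t * h - lam p t - 2 * C₃ * δ ^ k) / Real.log θ ≤
      (t * h * L - (L * lam p t + 1) - 4 * K * (θ / (θ - 1)) * t) / (L * Real.log θ) := by
    rw [div_le_div_iff₀ hlog (by positivity)]
    have e1 : (t * h * L - (L * lam p t + 1) - 4 * K * (θ / (θ - 1)) * t) * Real.log θ =
        (L * (t * h - lam p t) - (1 + 4 * K * (θ / (θ - 1)) * t)) * Real.log θ := by ring
    have e2 : (t * h - lam p t - 2 * C₃ * δ ^ k) * (L * Real.log θ) =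
        (L * (t * h - lam p t) - L * (2 * C₃ * δ ^ k)) * Real.log θ := by ring
    rw [e1, e2]
    refine mul_le_mul_of_nonneg_right ?_ hlog.le
    linarith
  linarith

theorem lower_few {θ : ℝ} (hθ : 1 < θ) (A k : ℕ) (hA : 1 ≤ A) : ∃ (k' : ℕ) (C δ₀ : ℝ), 0 < C ∧ 0 < δ₀ ∧ δ₀ ≤ 1 ∧
    ∀ δ : ℝ, 0 < δ → δ ≤ δ₀ → ∀ (H : ℕ) (c : ℤ → ℂ) (p : ℝ → ℝ), TC A δ H c p →
    16 / (A : ℝ) ≤ ∫ t in (0 : ℝ)..1, (p t) ^ 2 → ∀ D : ℕ, ((D : ℝ) + 1) ^ 2 * δ ≤ 1 →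
    Few θ (k' * (H + 1)) k' D → ∀ (s : ℕ → ℝ) (h : ℝ), δ ≤ h → h ≤ 2 * δ → ∀ R : ℝ,
      (∀ t, 0 ≤ t → t ≤ A * δ → t * h - lam p t ≤ R) → ∀ O : Set ℝ, IsOpen O → O.Nonempty →
      ENNReal.ofReal (1 - (R + C * δ ^ k) / Real.log θ) ≤
        dimH {x | x ∈ O ∧ ∀ᶠ N : ℕ in atTop, h * N ≤ Sm p θ s N x} := by
  have hAr : (1 : ℝ) ≤ A := by exact_mod_cast hA
  have hA0 : (0 : ℝ) < A := by linarith
  set m : ℕ := k + 2 with hm
  obtain ⟨k', δ₀', hδ₀'0, hδ₀'1, hX⟩ := block_few81 hθ A (2 * m + A + 2)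
  have hlog : 0 < Real.log θ := Real.log_pos hθ
  have hβ : 0 < θ / (θ - 1) := div_pos (by linarith) (by linarith)
  -- the threshold for `L`
  set C₄ : ℝ := 2 + 84 * (θ / (θ - 1)) * A ^ 2 with hC₄
  have hC₄0 : 0 < C₄ := by positivity
  refine ⟨k', 7 * (A : ℝ) ^ 3 + A ^ 2, min δ₀' (min (1 / (20 * (A : ℝ) ^ 5)) ((A : ℝ) ^ 2 / (4 * C₄))), by positivity,
    by positivity, (min_le_left _ _).trans hδ₀'1, ?_⟩
  intro δ hδ hδ₀ H c p hTC hV D hD hFew s h hh hh' R hR O hO hOne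
  have hδ' : δ ≤ δ₀' := hδ₀.trans (min_le_left _ _)
  have hδ1 : δ ≤ 1 := hδ'.trans hδ₀'1
  have hc1 : 20 * (A : ℝ) ^ 5 * δ ≤ 1 := by
    have := hδ₀.trans ((min_le_right _ _).trans (min_le_left _ _))
    rw [le_div_iff₀ (by positivity)] at this
    linarith
  have hδB : 4 * C₄ * δ ≤ (A : ℝ) ^ 2 := by
    have := hδ₀.trans ((min_le_right _ _).trans (min_le_right _ _))
    rw [le_div_iff₀ (by positivity)] at this
    linarith
  obtain ⟨K, hK, hlip, hKA⟩ := tc_lip hTC hδ hδ1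
  have hbd := hTC.bd
  have hpc : Continuous p := Pool.Agent.Helper87.GP.lip_cont hK hlip
  have hmean := gp_mean hTC.eq hTC.c0
  have hA25 : (A : ℝ) ^ 2 ≤ (A : ℝ) ^ 5 := pow_le_pow_right₀ hAr (by norm_num)
  have hA2 : (1 : ℝ) ≤ (A : ℝ) ^ 2 := one_le_pow₀ hAr
  have hA2δ : 20 * (A : ℝ) ^ 2 * δ ≤ 1 := by nlinarith
  set σ : ℝ := δ ^ m with hσd
  have hσ : 0 < σ := by positivity
  have hσ2 : σ ≤ δ ^ 2 := pow_le_pow_of_le_one hδ.le hδ1 (by omega)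
  have hσδ : 20 * (A : ℝ) ^ 2 * σ ≤ δ := by
    have h2 : 20 * (A : ℝ) ^ 2 * σ ≤ 20 * (A : ℝ) ^ 2 * δ ^ 2 := mul_le_mul_of_nonneg_left hσ2 (by positivity)
    have h4 : 20 * (A : ℝ) ^ 2 * δ * δ ≤ 1 * δ := mul_le_mul_of_nonneg_right hA2δ hδ.le
    have h5 : 20 * (A : ℝ) ^ 2 * δ ^ 2 = 20 * (A : ℝ) ^ 2 * δ * δ := by ring
    linarith
  have hAσ : 0 < (A : ℝ) ^ 2 * σ := by positivity
  obtain ⟨t, htσ, htA, hval, hup, hdn⟩ := Pool.Agent.Helper87.GP.exists_opt hpc hAr hbd hmean hV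
    (h' := h + 4 * (A : ℝ) ^ 2 * σ) (σ := σ) hδ hc1 hσ hσδ (by linarith) (by linarith)
  have ht0 : 0 < t := by linarith
  have hσAδ : σ ≤ A * δ := htσ.trans htA
  -- the block length
  obtain ⟨L, hL1, hL2, hL3⟩ := choose_len hδ hδ1 (2 * m + A + 2)
  have hLδ := hL3 δ hδ.le le_rfl
  have hL0 : (0 : ℝ) < L := by exact_mod_cast hL1
  have hKt : 0 ≤ 4 * K * (θ / (θ - 1)) * t := by positivity
  have hLσ : 2 + 3 * (4 * K * (θ / (θ - 1)) * t) < A ^ 2 * σ ^ 2 * L := by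
    have h1 : t ≤ A := htA.trans (by nlinarith)
    have h2 : (2 + 3 * (4 * K * (θ / (θ - 1)) * t)) * δ ^ (A + 1) ≤ C₄ := by
      have h3 : δ ^ (A + 1) ≤ 1 := pow_le_one₀ hδ.le hδ1
      have h5 : (K * δ ^ (A + 1)) * t ≤ 7 * A * A := mul_le_mul hKA h1 ht0.le (by positivity)
      have h6 : 12 * (θ / (θ - 1)) * ((K * δ ^ (A + 1)) * t) ≤ 12 * (θ / (θ - 1)) * (7 * A * A) :=
        mul_le_mul_of_nonneg_left h5 (by positivity)
      have e1 : (2 + 3 * (4 * K * (θ / (θ - 1)) * t)) * δ ^ (A + 1) =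
          2 * δ ^ (A + 1) + 12 * (θ / (θ - 1)) * ((K * δ ^ (A + 1)) * t) := by ring
      have e2 : 12 * (θ / (θ - 1)) * (7 * A * A) = 84 * (θ / (θ - 1)) * A ^ 2 := by ring
      rw [e1, hC₄]
      linarith
    have hX0 : 0 < 2 + 3 * (4 * K * (θ / (θ - 1)) * t) := by linarith
    have h3 : (2 + 3 * (4 * K * (θ / (θ - 1)) * t)) * 1 ≤
        (2 + 3 * (4 * K * (θ / (θ - 1)) * t)) * (2 * L * δ ^ (2 * m + A + 2)) :=
      mul_le_mul_of_nonneg_left hL2 hX0.le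
    have e3 : (2 + 3 * (4 * K * (θ / (θ - 1)) * t)) * (2 * L * δ ^ (2 * m + A + 2)) =
        ((2 + 3 * (4 * K * (θ / (θ - 1)) * t)) * δ ^ (A + 1)) * (2 * L * (δ * σ ^ 2)) := by
      rw [hσd, ← pow_mul, show 2 * m + A + 2 = (A + 1) + (1 + m * 2) by ring, pow_add, pow_add, pow_one]
      ring
    have h5 : ((2 + 3 * (4 * K * (θ / (θ - 1)) * t)) * δ ^ (A + 1)) * (2 * L * (δ * σ ^ 2)) ≤
        C₄ * (2 * L * (δ * σ ^ 2)) := mul_le_mul_of_nonneg_right h2 (by positivity)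
    have e4 : C₄ * (2 * L * (δ * σ ^ 2)) = (4 * C₄ * δ) * (σ ^ 2 * L) / 2 := by ring
    have h6 : (4 * C₄ * δ) * (σ ^ 2 * L) ≤ A ^ 2 * (σ ^ 2 * L) := mul_le_mul_of_nonneg_right hδB (by positivity)
    have h7 : 0 < (A : ℝ) ^ 2 * (σ ^ 2 * L) := by positivity
    have e5 : (A : ℝ) ^ 2 * (σ ^ 2 * L) = A ^ 2 * σ ^ 2 * L := by ring
    rw [← e5]
    linarith
  -- the interval
  obtain ⟨x₀, hx₀⟩ := hOne
  obtain ⟨ε, hε, hball⟩ := Metric.isOpen_iff.1 hO x₀ hx₀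
  obtain ⟨n₀, hn₀⟩ : ∃ n₀ : ℕ, 1 / θ ^ (n₀ + 1) < ε := by
    obtain ⟨n, hn⟩ := exists_pow_lt_of_lt_one hε (inv_lt_one_of_one_lt₀ hθ)
    refine ⟨n, ?_⟩
    rw [one_div, ← inv_pow]
    refine lt_of_le_of_lt ?_ hn
    exact pow_le_pow_of_le_one (by positivity) (inv_lt_one_of_one_lt₀ hθ).le (by omega)
  have hIO : Icc x₀ (x₀ + 1 / θ ^ (n₀ + 1)) ⊆ O := by
    intro x hx
    refine hball ?_
    rw [Metric.mem_ball, Real.dist_eq, abs_of_nonneg (by linarith [hx.1])]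
    linarith [hx.2]
  have hfam := mult_fam hθ s n₀ x₀
  have hblock : ∀ t', 0 ≤ t' → t' ≤ 2 * A * δ → ∀ (n : ℕ) (a b : ℝ),
      1 ≤ (b * θ ^ (n + n₀ + 1) + s (n + n₀)) - (a * θ ^ (n + n₀ + 1) + s (n + n₀)) →
      (b - a) * Real.exp (L * lam p t' - 1) ≤
        (∫ x in a..b, Real.exp (t' * ∑ j ∈ Finset.Ico n (n + L), p (x * θ ^ (j + n₀ + 1) + s (j + n₀)))) ∧
      (∫ x in a..b, Real.exp (t' * ∑ j ∈ Finset.Ico n (n + L), p (x * θ ^ (j + n₀ + 1) + s (j + n₀)))) ≤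
        (b - a) * Real.exp (L * lam p t' + 1) := by
    intro t' h0 h1 n a b h2
    rw [mult_block hθ s n₀ p t' L n a b]
    refine hX δ hδ hδ' H c p hTC D hD hFew t' h0 h1 L hLδ (θ ^ (n + n₀ + 1)) (fun i => s (n + i + n₀)) a b (by positivity) ?_
    have e : b * θ ^ (n + n₀ + 1) + s (n + n₀) - (a * θ ^ (n + n₀ + 1) + s (n + n₀)) = θ ^ (n + n₀ + 1) * (b - a) := by ring
    rw [← e]
    exact h2
  have e0 : ∀ t', lam p t' = Real.log (Pool.Agent.Helper87.GP.mg p t') := fun t' => rfl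
  rw [← e0, ← e0] at hup hdn
  rw [← e0] at hval
  have h2t : 0 < (A : ℝ) ^ 2 * σ ^ 2 := by positivity
  have hKt3 : 4 * K * (θ / (θ - 1)) * (3 * t) = 3 * (4 * K * (θ / (θ - 1)) * t) := by ring
  have hmain := Pool.Agent.Helper44.KX.fam_lower hfam (φ := p) (K := K) (B := A) hK hlip hbd (t := t) (t₁ := σ) (t₂ := σ)
    (Λ := L * lam p t - 1) (Λ₁ := L * lam p (t + σ) + 1) (Λ₂ := L * lam p (t - σ) + 1)
    (h₁ := h + A ^ 2 * σ) (h₂ := h + 7 * A ^ 2 * σ) ht0 hσ htσ hσ htσ hL1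
    (fun n a b _ _ _ h1 _ => (hblock t ht0.le (by linarith) n a b h1).1)
    (fun n a b _ _ _ h1 _ => (hblock (t + σ) (by linarith) (by linarith) n a b h1).2)
    (fun n a b _ _ _ h1 _ => (hblock (t - σ) (by linarith) (by linarith) n a b h1).2)
    (by
      have h1 : L * (lam p (t + σ) - lam p t) ≤ L * (σ * (h + 4 * A ^ 2 * σ) + 2 * A ^ 2 * σ ^ 2) :=
        mul_le_mul_of_nonneg_left hup hL0.le
      have e1 : L * (σ * (h + 4 * A ^ 2 * σ) + 2 * A ^ 2 * σ ^ 2) = σ * (h + 7 * A ^ 2 * σ) * L - A ^ 2 * σ ^ 2 * L := by ring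
      have e2 : L * (lam p (t + σ) - lam p t) = L * lam p (t + σ) - L * lam p t := by ring
      linarith)
    (by
      have h1 : L * (lam p (t - σ) - lam p t) ≤ L * (-(σ * (h + 4 * A ^ 2 * σ)) + 2 * A ^ 2 * σ ^ 2) :=
        mul_le_mul_of_nonneg_left hdn hL0.le
      have e1 : L * (-(σ * (h + 4 * A ^ 2 * σ)) + 2 * A ^ 2 * σ ^ 2) = -(σ * (h + A ^ 2 * σ) * L) - A ^ 2 * σ ^ 2 * L := by ring
      have e2 : L * (lam p (t - σ) - lam p t) = L * lam p (t - σ) - L * lam p t := by ring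
      linarith)
    (by
      have h0 : 0 ≤ δ ^ 2 / (4 * (A : ℝ) ^ 2) := by positivity
      have h1 : 0 ≤ t * (h + 4 * A ^ 2 * σ) - lam p t := h0.trans hval
      have h2 : 0 ≤ 3 * A ^ 2 * σ * t := by positivity
      have h3 : 0 ≤ L * (t * (h + 4 * A ^ 2 * σ) - lam p t + 3 * A ^ 2 * σ * t) := by positivity
      have e1 : t * (h + 7 * A ^ 2 * σ) * L - (L * lam p t - 1) =
          L * (t * (h + 4 * A ^ 2 * σ) - lam p t + 3 * A ^ 2 * σ * t) + 1 := by ring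
      rw [e1]
      linarith) (h := h + A ^ 2 * σ / 2) (by linarith)
  refine le_trans (ENNReal.ofReal_le_ofReal ?_) (hmain.trans (dimH_mono ?_))
  · have h2 := hR t ht0.le htA
    have h3 : 7 * A ^ 2 * σ * t ≤ 7 * A ^ 3 * δ ^ k := by
      have h4 : σ * t ≤ δ ^ k * A := by
        have h5 : σ ≤ δ ^ k := pow_le_pow_of_le_one hδ.le hδ1 (by omega)
        have h6 : t ≤ A := htA.trans (by nlinarith)
        exact mul_le_mul h5 h6 ht0.le (by positivity)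
      calc 7 * (A : ℝ) ^ 2 * σ * t = 7 * A ^ 2 * (σ * t) := by ring
        _ ≤ 7 * A ^ 2 * (δ ^ k * A) := by gcongr
        _ = 7 * A ^ 3 * δ ^ k := by ring
    have h4 : (A : ℝ) ^ 2 * σ ^ 2 ≤ A ^ 2 * δ ^ k := by
      refine mul_le_mul_of_nonneg_left ?_ (by positivity)
      rw [hσd, ← pow_mul]
      exact pow_le_pow_of_le_one hδ.le hδ1 (by omega)
    have h5 : (t * (h + 7 * A ^ 2 * σ) * L - (L * lam p t - 1) + 4 * K * (θ / (θ - 1)) * t) / (L * Real.log θ) ≤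
        (R + (7 * (A : ℝ) ^ 3 + A ^ 2) * δ ^ k) / Real.log θ := by
      rw [div_le_div_iff₀ (by positivity) hlog]
      have e1 : (t * (h + 7 * A ^ 2 * σ) * L - (L * lam p t - 1) + 4 * K * (θ / (θ - 1)) * t) * Real.log θ =
          (L * (t * h - lam p t + 7 * A ^ 2 * σ * t) + (1 + 4 * K * (θ / (θ - 1)) * t)) * Real.log θ := by ring
      have e2 : (R + (7 * (A : ℝ) ^ 3 + A ^ 2) * δ ^ k) * (L * Real.log θ) =
          (L * (R + 7 * A ^ 3 * δ ^ k) + A ^ 2 * δ ^ k * L) * Real.log θ := by ring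
      rw [e1, e2]
      refine mul_le_mul_of_nonneg_right ?_ hlog.le
      have h6 : L * (t * h - lam p t + 7 * A ^ 2 * σ * t) ≤ L * (R + 7 * A ^ 3 * δ ^ k) :=
        mul_le_mul_of_nonneg_left (by linarith) hL0.le
      have h7 : (A : ℝ) ^ 2 * σ ^ 2 * L ≤ A ^ 2 * δ ^ k * L := mul_le_mul_of_nonneg_right h4 hL0.le
      linarith
    linarith
  · rintro x ⟨hx, hN⟩
    refine ⟨hIO hx, ?_⟩
    -- the first terms
    have hsplit : ∀ N : ℕ, Sm p θ s (N + n₀) x = Sm p θ s n₀ x +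
        S p (fun n x => x * θ ^ (n + n₀ + 1) + s (n + n₀)) N x := by
      intro N
      unfold Sm S
      rw [add_comm N n₀, Finset.sum_range_add]
      congr 1
      refine Finset.sum_congr rfl fun n _ => ?_
      rw [show n₀ + n = n + n₀ by omega]
    have hev : ∀ᶠ N : ℕ in atTop, h * ((N + n₀ : ℕ) : ℝ) ≤ Sm p θ s (N + n₀) x := by
      have hlim : ∀ᶠ N : ℕ in atTop, (h * n₀ - Sm p θ s n₀ x) / (A ^ 2 * σ / 2) ≤ N :=
        eventually_atTop.2 ⟨⌈(h * n₀ - Sm p θ s n₀ x) / (A ^ 2 * σ / 2)⌉₊, fun N hN =>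
          (Nat.le_ceil _).trans (by exact_mod_cast hN)⟩
      filter_upwards [hN, hlim] with N h1 h2
      rw [div_le_iff₀ (by positivity)] at h2
      rw [hsplit]
      push_cast
      linarith
    obtain ⟨N₁, hN₁⟩ := eventually_atTop.1 hev
    refine eventually_atTop.2 ⟨N₁ + n₀, fun N hN => ?_⟩
    have := hN₁ (N - n₀) (by omega)
    rwa [Nat.sub_add_cancel (by omega)] at this

end Pool.Agent.Helper78.KX
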