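import Pool.Agent.Helper78.KX.Defs
import Pool.Agent.Helper87.GP.Taylor

/-!
# Block X4: dimensions to all orders for the multiples of a geometric progression
-/

set_option autoImplicit false

namespace Pool.Agent.Helper78.KX

open MeasureTheory Set Filter Topology Pool.Agent.Helper18.GP Pool.Agent.Helper82.FK
open Pool.Agent.Helper78.KD (Fam S)

/-- block X2 -/
def StmtX2 : Prop := ∀ {θ : ℝ} (_ : 1 < θ) (_ : Transcendental ℤ θ) (H : ℕ) (c : ℤ → ℂ) (p : ℝ → ℝ)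
    (_ : ∀ t, gp H c t = p t) (_ : c 0 = 0) (k : ℕ),
    ∃ C t₀ : ℝ, 0 < C ∧ 0 < t₀ ∧ t₀ ≤ 1 ∧ ∀ t, 0 ≤ t → t ≤ t₀ → ∀ L : ℕ, L * t ^ k ≤ 1 → ∀ (κ : ℝ) (σ : ℕ → ℝ) (a b : ℝ),
      0 < κ → 1 ≤ κ * (b - a) →
      (b - a) * Real.exp (L * lam p t - C * t) ≤
        (∫ x in a..b, Real.exp (t * ∑ n ∈ Finset.range L, p (κ * x * θ ^ n + σ n))) ∧
      (∫ x in a..b, Real.exp (t * ∑ n ∈ Finset.range L, p (κ * x * θ ^ n + σ n))) ≤
        (b - a) * Real.exp (L * lam p t + C * t)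

/-- block X3, upper bound -/
def StmtX3u : Prop := ∀ {u v : ℕ → ℝ → ℝ} {a b β₁ β₂ : ℝ} (_ : Fam u v a b β₁ β₂) {φ : ℝ → ℝ} {K B : ℝ} (_ : 0 ≤ K)
    (_ : ∀ s t, |φ s - φ t| ≤ K * |s - t|) (_ : ∀ t, |φ t| ≤ B) {t Λ : ℝ} (_ : 0 ≤ t) {L : ℕ} (_ : 1 ≤ L)
    (_ : ∀ (n : ℕ) (p q : ℝ), a ≤ p → p < q → q ≤ b → 1 ≤ u n q - u n p → u n q - u n p ≤ 2 →
      (∫ x in p..q, Real.exp (t * ∑ j ∈ Finset.Ico n (n + L), φ (u j x))) ≤ (q - p) * Real.exp Λ) (h : ℝ),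
    dimH {x | x ∈ Icc a b ∧ ∃ᶠ N : ℕ in atTop, h * N ≤ S φ u N x} ≤
      ENNReal.ofReal (1 - (t * h * L - Λ - 4 * K * (β₁ / (β₁ - 1)) * t) / (L * Real.log β₂))

/-- block X3, lower bound -/
def StmtX3l : Prop := ∀ {u v : ℕ → ℝ → ℝ} {a b β₁ β₂ : ℝ} (_ : Fam u v a b β₁ β₂) {φ : ℝ → ℝ} {K B : ℝ} (_ : 0 ≤ K)
    (_ : ∀ s t, |φ s - φ t| ≤ K * |s - t|) (_ : ∀ t, |φ t| ≤ B) {t t₁ t₂ Λ Λ₁ Λ₂ h₁ h₂ : ℝ} (_ : 0 < t)
    (_ : 0 < t₁) (_ : t₁ ≤ t) (_ : 0 < t₂) (_ : t₂ ≤ t) {L : ℕ} (_ : 1 ≤ L)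
    (_ : ∀ (n : ℕ) (p q : ℝ), a ≤ p → p < q → q ≤ b → 1 ≤ u n q - u n p → u n q - u n p ≤ 2 →
      (q - p) * Real.exp Λ ≤ (∫ x in p..q, Real.exp (t * ∑ j ∈ Finset.Ico n (n + L), φ (u j x))))
    (_ : ∀ (n : ℕ) (p q : ℝ), a ≤ p → p < q → q ≤ b → 1 ≤ u n q - u n p → u n q - u n p ≤ 2 →
      (∫ x in p..q, Real.exp ((t + t₁) * ∑ j ∈ Finset.Ico n (n + L), φ (u j x))) ≤ (q - p) * Real.exp Λ₁)
    (_ : ∀ (n : ℕ) (p q : ℝ), a ≤ p → p < q → q ≤ b → 1 ≤ u n q - u n p → u n q - u n p ≤ 2 →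
      (∫ x in p..q, Real.exp ((t - t₂) * ∑ j ∈ Finset.Ico n (n + L), φ (u j x))) ≤ (q - p) * Real.exp Λ₂)
    (_ : Λ₁ - Λ + 4 * K * (β₁ / (β₁ - 1)) * (3 * t) < t₁ * h₂ * L)
    (_ : Λ₂ - Λ + 4 * K * (β₁ / (β₁ - 1)) * (3 * t) + t₂ * h₁ * L < 0) (_ : 0 ≤ t * h₂ * L - Λ) {h : ℝ} (_ : h < h₁),
    ENNReal.ofReal (1 - (t * h₂ * L - Λ + 4 * K * (β₁ / (β₁ - 1)) * t) / (L * Real.log β₁)) ≤
      dimH {x | x ∈ Icc a b ∧ ∀ᶠ N : ℕ in atTop, h * N ≤ S φ u N x}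

/-- the block length -/
theorem choose_len {y : ℝ} (hy : 0 < y) (hy1 : y ≤ 1) (k : ℕ) :
    ∃ L : ℕ, 1 ≤ L ∧ 1 ≤ 2 * L * y ^ k ∧ ∀ t : ℝ, 0 ≤ t → t ≤ y → L * t ^ k ≤ 1 := by
  have h1 : 1 ≤ (1 / y) ^ k := one_le_pow₀ (by rw [le_div_iff₀ hy]; linarith)
  refine ⟨⌊(1 / y) ^ k⌋₊, Nat.one_le_floor_iff _ |>.2 h1, ?_, fun t ht hty => ?_⟩
  · have h2 := Nat.lt_floor_add_one ((1 / y) ^ k)
    have h3 : (1 : ℝ) ≤ (⌊(1 / y) ^ k⌋₊ : ℝ) := by exact_mod_cast (Nat.one_le_floor_iff _).2 h1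
    have h4 : (1 / y) ^ k ≤ 2 * (⌊(1 / y) ^ k⌋₊ : ℝ) := by linarith
    have h5 : (1 / y) ^ k * y ^ k ≤ 2 * (⌊(1 / y) ^ k⌋₊ : ℝ) * y ^ k :=
      mul_le_mul_of_nonneg_right h4 (by positivity)
    rwa [← mul_pow, one_div_mul_cancel hy.ne', one_pow] at h5
  · have h2 : (⌊(1 / y) ^ k⌋₊ : ℝ) ≤ (1 / y) ^ k := Nat.floor_le (by positivity)
    calc (⌊(1 / y) ^ k⌋₊ : ℝ) * t ^ k ≤ (1 / y) ^ k * t ^ k := mul_le_mul_of_nonneg_right h2 (by positivity)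
      _ ≤ (1 / y) ^ k * y ^ k := by gcongr
      _ = 1 := by rw [← mul_pow, one_div_mul_cancel hy.ne', one_pow]

/-- the family of the multiples -/
theorem mult_fam {θ : ℝ} (hθ : 1 < θ) (s : ℕ → ℝ) (n₀ : ℕ) (a : ℝ) :
    Fam (fun n x => x * θ ^ (n + n₀ + 1) + s (n + n₀)) (fun n _ => θ ^ (n + n₀ + 1)) a (a + 1 / θ ^ (n₀ + 1)) θ θ where
  hab := by
    have : 0 < 1 / θ ^ (n₀ + 1) := by positivity
    linarith
  hβ := hθ
  hβ' := le_rfl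
  deriv n x _ := by
    have h1 := ((hasDerivAt_id x).mul_const (θ ^ (n + n₀ + 1))).add_const (s (n + n₀))
    simpa using h1
  cont n := continuousOn_const
  pos n x _ := by positivity
  mono n := monotoneOn_const
  growth n x _ := by
    have : θ ^ (n + 1 + n₀ + 1) = θ * θ ^ (n + n₀ + 1) := by
      rw [← pow_succ']
      congr 1
      omega
    exact ⟨this.ge, this.le⟩
  root := by
    have h1 : (0 : ℝ) < θ ^ (n₀ + 1) := by positivity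
    have h2 : (a + 1 / θ ^ (n₀ + 1)) * θ ^ (0 + n₀ + 1) + s (0 + n₀) - (a * θ ^ (0 + n₀ + 1) + s (0 + n₀)) = 1 := by
      rw [show 0 + n₀ + 1 = n₀ + 1 by omega]
      field_simp
      ring
    show 1 ≤ (a + 1 / θ ^ (n₀ + 1)) * θ ^ (0 + n₀ + 1) + s (0 + n₀) - (a * θ ^ (0 + n₀ + 1) + s (0 + n₀)) ∧
      (a + 1 / θ ^ (n₀ + 1)) * θ ^ (0 + n₀ + 1) + s (0 + n₀) - (a * θ ^ (0 + n₀ + 1) + s (0 + n₀)) ≤ 2
    rw [h2]
    norm_num
  dist2 n x _ y _ _ _ := by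
    have : 0 < θ ^ (n + n₀ + 1) := by positivity
    show θ ^ (n + n₀ + 1) ≤ 2 * θ ^ (n + n₀ + 1)
    linarith

/-- the blocks -/
theorem mult_block {θ : ℝ} (hθ : 1 < θ) (s : ℕ → ℝ) (n₀ : ℕ) (f : ℝ → ℝ) (t : ℝ) (L n : ℕ) (p q : ℝ) :
    (∫ x in p..q, Real.exp (t * ∑ j ∈ Finset.Ico n (n + L), f (x * θ ^ (j + n₀ + 1) + s (j + n₀)))) =
      ∫ x in p..q, Real.exp (t * ∑ i ∈ Finset.range L, f (θ ^ (n + n₀ + 1) * x * θ ^ i + s (n + i + n₀))) := by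
  refine intervalIntegral.integral_congr fun x _ => ?_
  show Real.exp _ = Real.exp _
  congr 2
  rw [Finset.sum_Ico_eq_sum_range, Nat.add_sub_cancel_left]
  refine Finset.sum_congr rfl fun i _ => ?_
  congr 2
  rw [show n + i + n₀ + 1 = (n + n₀ + 1) + i by omega, pow_add]
  ring

theorem gp_mean {H : ℕ} {c : ℤ → ℂ} {p : ℝ → ℝ} (hp : ∀ t, gp H c t = p t) (hc0 : c 0 = 0) :
    ∫ t in (0 : ℝ)..1, p t = 0 := by
  have h1 := coeff_zero hp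
  rw [hc0] at h1
  exact_mod_cast h1.symm

theorem mult_upper_all_of (hX2 : StmtX2) (hX3 : StmtX3u) {θ : ℝ} (hθ : 1 < θ) (htr : Transcendental ℤ θ) (H : ℕ)
    (c : ℤ → ℂ) (p : ℝ → ℝ) (hp : ∀ t, gp H c t = p t) (hc0 : c 0 = 0) (A k : ℕ) :
    ∃ C δ₀ : ℝ, 0 < C ∧ 0 < δ₀ ∧ δ₀ ≤ 1 ∧ ∀ δ : ℝ, 0 < δ → δ ≤ δ₀ → ∀ t, 0 ≤ t → t ≤ A * δ → ∀ (s : ℕ → ℝ) (h : ℝ),
      dimH {x | ∃ᶠ N : ℕ in atTop, h * N ≤ Sm p θ s N x} ≤
        ENNReal.ofReal (1 - (t * h - lam p t - C * δ ^ k) / Real.log θ) := by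
  obtain ⟨C₂, t₀, hC₂, ht₀, ht₀1, hX⟩ := hX2 hθ htr H c p hp hc0 k
  obtain ⟨K, hK, hlip⟩ := Pool.Agent.Helper87.GP.gp_lip hp
  have hA0 : (0 : ℝ) ≤ A := Nat.cast_nonneg A
  have hA1 : (0 : ℝ) < A + 1 := by linarith
  have hlog : 0 < Real.log θ := Real.log_pos hθ
  have hβ : 0 < θ / (θ - 1) := div_pos (by linarith) (by linarith)
  set C₃ : ℝ := C₂ + 4 * K * (θ / (θ - 1)) with hC₃
  have hC₃0 : 0 < C₃ := by positivity
  refine ⟨2 * C₃ * (A + 1) * (A + 1) ^ k, min (t₀ / (A + 1)) 1, by positivity, by positivity, min_le_right _ _, ?_⟩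
  intro δ hδ hδ₀ t ht htA s h
  have hδ1 : δ ≤ 1 := hδ₀.trans (min_le_right _ _)
  have hδt : (A + 1) * δ ≤ t₀ := by
    have := hδ₀.trans (min_le_left _ _)
    rw [le_div_iff₀ hA1] at this
    linarith
  have hy0 : 0 < (A + 1) * δ := by positivity
  obtain ⟨L, hL1, hL2, hL3⟩ := choose_len hy0 (hδt.trans ht₀1) k
  have hty : t ≤ (A + 1) * δ := by nlinarith
  have hL0 : (0 : ℝ) < L := by exact_mod_cast hL1
  have hbd : ∀ t, |p t| ≤ nm H c := fun t => by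
    have := norm_gp_le H c t
    rwa [hp t, Complex.norm_real, Real.norm_eq_abs] at this
  -- a covering by intervals
  have hcov : {x | ∃ᶠ N : ℕ in atTop, h * N ≤ Sm p θ s N x} ⊆
      ⋃ j : ℤ, {x | x ∈ Icc ((j : ℝ) / θ) ((j : ℝ) / θ + 1 / θ ^ (0 + 1)) ∧ ∃ᶠ N : ℕ in atTop,
        h * N ≤ S p (fun n x => x * θ ^ (n + 0 + 1) + s (n + 0)) N x} := by
    intro x hx
    have hθ0 : 0 < θ := by linarith
    refine mem_iUnion.2 ⟨⌊x * θ⌋, ⟨?_, ?_⟩, hx⟩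
    · rw [div_le_iff₀ hθ0]
      exact Int.floor_le _
    · rw [zero_add, pow_one, ← add_div, le_div_iff₀ hθ0]
      exact (Int.lt_floor_add_one _).le
  refine (dimH_mono hcov).trans ?_
  rw [dimH_iUnion]
  refine iSup_le fun j => ?_
  have hfam := mult_fam hθ s 0 ((j : ℝ) / θ)
  have hmain := hX3 hfam (φ := p) (K := K) (B := nm H c) hK hlip hbd (t := t) (Λ := L * lam p t + C₂ * t) ht hL1
    (fun n a b _ hab _ h1 _ => by
      rw [mult_block hθ s 0 p t L n a b]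
      refine (hX t ht (hty.trans hδt) L (hL3 t ht hty) (θ ^ (n + 0 + 1)) (fun i => s (n + i + 0)) a b (by positivity) ?_).2
      have e : b * θ ^ (n + 0 + 1) + s (n + 0) - (a * θ ^ (n + 0 + 1) + s (n + 0)) = θ ^ (n + 0 + 1) * (b - a) := by ring
      rw [← e]
      exact h1) h
  refine hmain.trans (ENNReal.ofReal_le_ofReal ?_)
  have hδk : t ≤ L * (2 * C₃ * (A + 1) * (A + 1) ^ k * δ ^ k) / C₃ := by
    have e : L * (2 * C₃ * (A + 1) * (A + 1) ^ k * δ ^ k) / C₃ = (A + 1) * (2 * L * ((A + 1) * δ) ^ k) := by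
      rw [mul_pow]
      field_simp
    rw [e]
    have h2 : t ≤ (A + 1) * 1 := hty.trans (by nlinarith)
    exact h2.trans (mul_le_mul_of_nonneg_left hL2 hA1.le)
  rw [le_div_iff₀ hC₃0] at hδk
  have h1 : (t * h - lam p t - 2 * C₃ * (A + 1) * (A + 1) ^ k * δ ^ k) / Real.log θ ≤
      (t * h * L - (L * lam p t + C₂ * t) - 4 * K * (θ / (θ - 1)) * t) / (L * Real.log θ) := by
    rw [div_le_div_iff₀ hlog (by positivity)]
    have e1 : (t * h * L - (L * lam p t + C₂ * t) - 4 * K * (θ / (θ - 1)) * t) * Real.log θ =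
        (L * (t * h - lam p t) - C₃ * t) * Real.log θ := by rw [hC₃]; ring
    have e2 : (t * h - lam p t - 2 * C₃ * (A + 1) * (A + 1) ^ k * δ ^ k) * (L * Real.log θ) =
        (L * (t * h - lam p t) - L * (2 * C₃ * (A + 1) * (A + 1) ^ k * δ ^ k)) * Real.log θ := by ring
    rw [e1, e2]
    refine mul_le_mul_of_nonneg_right ?_ hlog.le
    linarith
  linarith

theorem mult_lower_all_of (hX2 : StmtX2) (hX3 : StmtX3l) {θ : ℝ} (hθ : 1 < θ) (htr : Transcendental ℤ θ) (H : ℕ)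
    (c : ℤ → ℂ) (p : ℝ → ℝ) (hp : ∀ t, gp H c t = p t) (hc0 : c 0 = 0) (A k : ℕ) (hA : 1 ≤ A) (hbd : ∀ t, |p t| ≤ A)
    (hV : 16 / (A : ℝ) ≤ ∫ t in (0 : ℝ)..1, (p t) ^ 2) :
    ∃ C δ₀ : ℝ, 0 < C ∧ 0 < δ₀ ∧ δ₀ ≤ 1 ∧ ∀ δ : ℝ, 0 < δ → δ ≤ δ₀ → ∀ (s : ℕ → ℝ) (h : ℝ), δ ≤ h → h ≤ 2 * δ → ∀ R : ℝ,
      (∀ t, 0 ≤ t → t ≤ A * δ → t * h - lam p t ≤ R) → ∀ O : Set ℝ, IsOpen O → O.Nonempty →
      ENNReal.ofReal (1 - (R + C * δ ^ k) / Real.log θ) ≤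
        dimH {x | x ∈ O ∧ ∀ᶠ N : ℕ in atTop, h * N ≤ Sm p θ s N x} := by
  have hAr : (1 : ℝ) ≤ A := by exact_mod_cast hA
  have hA0 : (0 : ℝ) < A := by linarith
  set m : ℕ := k + 2 with hm
  obtain ⟨C₂, t₀, hC₂, ht₀, ht₀1, hX⟩ := hX2 hθ htr H c p hp hc0 (2 * m)
  obtain ⟨K, hK, hlip⟩ := Pool.Agent.Helper87.GP.gp_lip hp
  have hpc : Continuous p := Pool.Agent.Helper87.GP.lip_cont hK hlip
  have hmean := gp_mean hp hc0
  have hlog : 0 < Real.log θ := Real.log_pos hθ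
  have hβ : 0 < θ / (θ - 1) := div_pos (by linarith) (by linarith)
  set C₄ : ℝ := 3 * C₂ + 12 * K * (θ / (θ - 1)) with hC₄
  have hC₄0 : 0 < C₄ := by positivity
  -- the threshold for `L`
  set B : ℝ := 2 * C₄ * A * (2 * A) ^ (2 * m) + 1 with hB
  have hB0 : 0 < B := by positivity
  refine ⟨7 * (A : ℝ) ^ 3 + A ^ 2, min (min (t₀ / (2 * A)) 1) (min (1 / (20 * (A : ℝ) ^ 5)) ((A : ℝ) ^ 2 / B)), by positivity,
    by positivity, (min_le_left _ _).trans (min_le_right _ _), ?_⟩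
  intro δ hδ hδ₀ s h hh hh' R hR O hO hOne
  have hδ1 : δ ≤ 1 := hδ₀.trans ((min_le_left _ _).trans (min_le_right _ _))
  have hδt : 2 * A * δ ≤ t₀ := by
    have := hδ₀.trans ((min_le_left _ _).trans (min_le_left _ _))
    rw [le_div_iff₀ (by positivity)] at this
    linarith
  have hc1 : 20 * (A : ℝ) ^ 5 * δ ≤ 1 := by
    have := hδ₀.trans ((min_le_right _ _).trans (min_le_left _ _))
    rw [le_div_iff₀ (by positivity)] at this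
    linarith
  have hδB : B * δ ≤ (A : ℝ) ^ 2 := by
    have := hδ₀.trans ((min_le_right _ _).trans (min_le_right _ _))
    rw [le_div_iff₀ hB0] at this
    linarith
  have hA25 : (A : ℝ) ^ 2 ≤ (A : ℝ) ^ 5 := pow_le_pow_right₀ hAr (by norm_num)
  have hA2 : (1 : ℝ) ≤ (A : ℝ) ^ 2 := one_le_pow₀ hAr
  have hA2δ : 20 * (A : ℝ) ^ 2 * δ ≤ 1 := by nlinarith
  set σ : ℝ := δ ^ m with hσd
  have hσ : 0 < σ := by positivity
  have hσ2 : σ ≤ δ ^ 2 := pow_le_pow_of_le_one hδ.le hδ1 (by omega)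
  have hσδ : 20 * (A : ℝ) ^ 2 * σ ≤ δ := by
    have h2 : 20 * (A : ℝ) ^ 2 * σ ≤ 20 * (A : ℝ) ^ 2 * δ ^ 2 := mul_le_mul_of_nonneg_left hσ2 (by positivity)
    have h4 : 20 * (A : ℝ) ^ 2 * δ * δ ≤ 1 * δ := mul_le_mul_of_nonneg_right hA2δ hδ.le
    have h5 : 20 * (A : ℝ) ^ 2 * δ ^ 2 = 20 * (A : ℝ) ^ 2 * δ * δ := by ring
    linarith
  have hAσ : 0 < (A : ℝ) ^ 2 * σ := by positivity
  obtain ⟨t, htσ, htA, hval, hup, hdn⟩ := Pool.Agent.Helper87.GP.exists_opt hpc hAr hbd hmean hV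
    (h' := h + 4 * (A : ℝ) ^ 2 * σ) (σ := σ) hδ hc1 hσ hσδ (by linarith) (by linarith)
  have ht0 : 0 < t := by linarith
  have hσAδ : σ ≤ A * δ := htσ.trans htA
  -- the block length
  have hy0 : 0 < 2 * A * δ := by positivity
  obtain ⟨L, hL1, hL2, hL3⟩ := choose_len hy0 (hδt.trans ht₀1) (2 * m)
  have hL0 : (0 : ℝ) < L := by exact_mod_cast hL1
  have hLσ : C₄ * t < A ^ 2 * σ ^ 2 * L := by
    have e1 : (2 * A * δ) ^ (2 * m) = (2 * A) ^ (2 * m) * σ ^ 2 := by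
      rw [hσd, mul_pow, ← pow_mul]
      congr 2
      omega
    rw [e1] at hL2
    have h1 : C₄ * t ≤ C₄ * (A * δ) := mul_le_mul_of_nonneg_left htA hC₄0.le
    have h2 : C₄ * (A * δ) * 1 ≤ C₄ * (A * δ) * (2 * L * ((2 * A) ^ (2 * m) * σ ^ 2)) :=
      mul_le_mul_of_nonneg_left hL2 (by positivity)
    have e2 : C₄ * (A * δ) * (2 * L * ((2 * A) ^ (2 * m) * σ ^ 2)) = (B - 1) * δ * (σ ^ 2 * L) := by rw [hB]; ring
    have h3 : (B - 1) * δ < A ^ 2 := by linarith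
    have h4 : (B - 1) * δ * (σ ^ 2 * L) < A ^ 2 * (σ ^ 2 * L) := mul_lt_mul_of_pos_right h3 (by positivity)
    have e3 : (A : ℝ) ^ 2 * (σ ^ 2 * L) = A ^ 2 * σ ^ 2 * L := by ring
    linarith
  -- the interval
  obtain ⟨x₀, hx₀⟩ := hOne
  obtain ⟨ε, hε, hball⟩ := Metric.isOpen_iff.1 hO x₀ hx₀
  obtain ⟨n₀, hn₀⟩ : ∃ n₀ : ℕ, 1 / θ ^ (n₀ + 1) < ε := by
    obtain ⟨n, hn⟩ := exists_pow_lt_of_lt_one hε (inv_lt_one_of_one_lt₀ hθ)
    refine ⟨n, ?_⟩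
    rw [one_div, ← inv_pow]
    refine lt_of_le_of_lt ?_ hn
    exact pow_le_pow_of_le_one (by positivity) (inv_lt_one_of_one_lt₀ hθ).le (by omega)
  have hIO : Icc x₀ (x₀ + 1 / θ ^ (n₀ + 1)) ⊆ O := by
    intro x hx
    refine hball ?_
    rw [Metric.mem_ball, Real.dist_eq, abs_of_nonneg (by linarith [hx.1])]
    linarith [hx.2]
  have hfam := mult_fam hθ s n₀ x₀
  have hblock : ∀ t', 0 ≤ t' → t' ≤ 2 * A * δ → ∀ (n : ℕ) (a b : ℝ),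
      1 ≤ (b * θ ^ (n + n₀ + 1) + s (n + n₀)) - (a * θ ^ (n + n₀ + 1) + s (n + n₀)) →
      (b - a) * Real.exp (L * lam p t' - C₂ * t') ≤
        (∫ x in a..b, Real.exp (t' * ∑ j ∈ Finset.Ico n (n + L), p (x * θ ^ (j + n₀ + 1) + s (j + n₀)))) ∧
      (∫ x in a..b, Real.exp (t' * ∑ j ∈ Finset.Ico n (n + L), p (x * θ ^ (j + n₀ + 1) + s (j + n₀)))) ≤
        (b - a) * Real.exp (L * lam p t' + C₂ * t') := by
    intro t' h0 h1 n a b h2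
    rw [mult_block hθ s n₀ p t' L n a b]
    refine hX t' h0 (h1.trans hδt) L (hL3 t' h0 h1) (θ ^ (n + n₀ + 1)) (fun i => s (n + i + n₀)) a b (by positivity) ?_
    have e : b * θ ^ (n + n₀ + 1) + s (n + n₀) - (a * θ ^ (n + n₀ + 1) + s (n + n₀)) = θ ^ (n + n₀ + 1) * (b - a) := by ring
    rw [← e]
    exact h2
  have e0 : ∀ t', lam p t' = Real.log (Pool.Agent.Helper87.GP.mg p t') := fun t' => rfl
  rw [← e0, ← e0] at hup hdn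
  rw [← e0] at hval
  have h2t : 0 < (A : ℝ) ^ 2 * σ ^ 2 := by positivity
  have hC₂t : 3 * (C₂ * t) + 4 * K * (θ / (θ - 1)) * (3 * t) = C₄ * t := by rw [hC₄]; ring
  have hKt : 0 ≤ 4 * K * (θ / (θ - 1)) * t := by positivity
  have hKt3 : 4 * K * (θ / (θ - 1)) * (3 * t) = 3 * (4 * K * (θ / (θ - 1)) * t) := by ring
  have hCσ : C₂ * σ ≤ C₂ * t := mul_le_mul_of_nonneg_left htσ hC₂.le
  have hCσ0 : 0 < C₂ * σ := mul_pos hC₂ hσ
  have hCt0 : 0 < C₂ * t := mul_pos hC₂ ht0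
  have hmain := hX3 hfam (φ := p) (K := K) (B := A) hK hlip hbd (t := t) (t₁ := σ) (t₂ := σ)
    (Λ := L * lam p t - C₂ * t) (Λ₁ := L * lam p (t + σ) + C₂ * (t + σ)) (Λ₂ := L * lam p (t - σ) + C₂ * (t - σ))
    (h₁ := h + A ^ 2 * σ) (h₂ := h + 7 * A ^ 2 * σ) ht0 hσ htσ hσ htσ hL1
    (fun n a b _ _ _ h1 _ => (hblock t ht0.le (by linarith) n a b h1).1)
    (fun n a b _ _ _ h1 _ => (hblock (t + σ) (by linarith) (by linarith) n a b h1).2)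
    (fun n a b _ _ _ h1 _ => (hblock (t - σ) (by linarith) (by linarith) n a b h1).2)
    (by
      have h1 : L * (lam p (t + σ) - lam p t) ≤ L * (σ * (h + 4 * A ^ 2 * σ) + 2 * A ^ 2 * σ ^ 2) :=
        mul_le_mul_of_nonneg_left hup hL0.le
      have e1 : L * (σ * (h + 4 * A ^ 2 * σ) + 2 * A ^ 2 * σ ^ 2) = σ * (h + 7 * A ^ 2 * σ) * L - A ^ 2 * σ ^ 2 * L := by ring
      have e2 : L * (lam p (t + σ) - lam p t) = L * lam p (t + σ) - L * lam p t := by ring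
      linarith)
    (by
      have h1 : L * (lam p (t - σ) - lam p t) ≤ L * (-(σ * (h + 4 * A ^ 2 * σ)) + 2 * A ^ 2 * σ ^ 2) :=
        mul_le_mul_of_nonneg_left hdn hL0.le
      have e1 : L * (-(σ * (h + 4 * A ^ 2 * σ)) + 2 * A ^ 2 * σ ^ 2) = -(σ * (h + A ^ 2 * σ) * L) - A ^ 2 * σ ^ 2 * L := by ring
      have e2 : L * (lam p (t - σ) - lam p t) = L * lam p (t - σ) - L * lam p t := by ring
      linarith)
    (by
      have h0 : 0 ≤ δ ^ 2 / (4 * (A : ℝ) ^ 2) := by positivity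
      have h1 : 0 ≤ t * (h + 4 * A ^ 2 * σ) - lam p t := h0.trans hval
      have h2 : 0 ≤ 3 * A ^ 2 * σ * t := by positivity
      have h3 : 0 ≤ L * (t * (h + 4 * A ^ 2 * σ) - lam p t + 3 * A ^ 2 * σ * t) := by positivity
      have h4 : 0 ≤ C₂ * t := by positivity
      have e1 : t * (h + 7 * A ^ 2 * σ) * L - (L * lam p t - C₂ * t) =
          L * (t * (h + 4 * A ^ 2 * σ) - lam p t + 3 * A ^ 2 * σ * t) + C₂ * t := by ring
      rw [e1]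
      linarith) (h := h + A ^ 2 * σ / 2) (by linarith)
  refine le_trans (ENNReal.ofReal_le_ofReal ?_) (hmain.trans (dimH_mono ?_))
  · have h2 := hR t ht0.le htA
    have h3 : 7 * A ^ 2 * σ * t ≤ 7 * A ^ 3 * δ ^ k := by
      have h4 : σ * t ≤ δ ^ k * A := by
        have h5 : σ ≤ δ ^ k := pow_le_pow_of_le_one hδ.le hδ1 (by omega)
        have h6 : t ≤ A := htA.trans (by nlinarith)
        exact mul_le_mul h5 h6 ht0.le (by positivity)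
      calc 7 * (A : ℝ) ^ 2 * σ * t = 7 * A ^ 2 * (σ * t) := by ring
        _ ≤ 7 * A ^ 2 * (δ ^ k * A) := by gcongr
        _ = 7 * A ^ 3 * δ ^ k := by ring
    have h4 : (A : ℝ) ^ 2 * σ ^ 2 ≤ A ^ 2 * δ ^ k := by
      refine mul_le_mul_of_nonneg_left ?_ (by positivity)
      rw [hσd, ← pow_mul]
      exact pow_le_pow_of_le_one hδ.le hδ1 (by omega)
    have h5 : (t * (h + 7 * A ^ 2 * σ) * L - (L * lam p t - C₂ * t) + 4 * K * (θ / (θ - 1)) * t) / (L * Real.log θ) ≤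
        (R + (7 * (A : ℝ) ^ 3 + A ^ 2) * δ ^ k) / Real.log θ := by
      rw [div_le_div_iff₀ (by positivity) hlog]
      have e1 : (t * (h + 7 * A ^ 2 * σ) * L - (L * lam p t - C₂ * t) + 4 * K * (θ / (θ - 1)) * t) * Real.log θ =
          (L * (t * h - lam p t + 7 * A ^ 2 * σ * t) + (C₂ * t + 4 * K * (θ / (θ - 1)) * t)) * Real.log θ := by ring
      have e2 : (R + (7 * (A : ℝ) ^ 3 + A ^ 2) * δ ^ k) * (L * Real.log θ) =
          (L * (R + 7 * A ^ 3 * δ ^ k) + A ^ 2 * δ ^ k * L) * Real.log θ := by ring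
      rw [e1, e2]
      refine mul_le_mul_of_nonneg_right ?_ hlog.le
      have h6 : L * (t * h - lam p t + 7 * A ^ 2 * σ * t) ≤ L * (R + 7 * A ^ 3 * δ ^ k) :=
        mul_le_mul_of_nonneg_left (by linarith) hL0.le
      have h7 : (A : ℝ) ^ 2 * σ ^ 2 * L ≤ A ^ 2 * δ ^ k * L := mul_le_mul_of_nonneg_right h4 hL0.le
      have h8 : 0 ≤ C₂ * t := by positivity
      linarith
    linarith
  · rintro x ⟨hx, hN⟩
    refine ⟨hIO hx, ?_⟩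
    -- the first terms
    have hsplit : ∀ N : ℕ, Sm p θ s (N + n₀) x = Sm p θ s n₀ x +
        S p (fun n x => x * θ ^ (n + n₀ + 1) + s (n + n₀)) N x := by
      intro N
      unfold Sm S
      rw [add_comm N n₀, Finset.sum_range_add]
      congr 1
      refine Finset.sum_congr rfl fun n _ => ?_
      rw [show n₀ + n = n + n₀ by omega]
    have hev : ∀ᶠ N : ℕ in atTop, h * ((N + n₀ : ℕ) : ℝ) ≤ Sm p θ s (N + n₀) x := by
      have hlim : ∀ᶠ N : ℕ in atTop, (h * n₀ - Sm p θ s n₀ x) / (A ^ 2 * σ / 2) ≤ N :=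
        eventually_atTop.2 ⟨⌈(h * n₀ - Sm p θ s n₀ x) / (A ^ 2 * σ / 2)⌉₊, fun N hN =>
          (Nat.le_ceil _).trans (by exact_mod_cast hN)⟩
      filter_upwards [hN, hlim] with N h1 h2
      rw [div_le_iff₀ (by positivity)] at h2
      rw [hsplit]
      push_cast
      linarith
    obtain ⟨N₁, hN₁⟩ := eventually_atTop.1 hev
    refine eventually_atTop.2 ⟨N₁ + n₀, fun N hN => ?_⟩
    have := hN₁ (N - n₀) (by omega)
    rwa [Nat.sub_add_cancel (by omega)] at this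

end Pool.Agent.Helper78.KX
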