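import Pool.Agent.Helper81.KX.X4
import Pool.Agent.Helper44.KX.FamDim

/-!
# Block X4: dimensions to all orders for the multiples, from block X2
-/

set_option autoImplicit false

namespace Pool.Agent.Helper78.KX

open MeasureTheory Set Filter Topology Pool.Agent.Helper18.GP Pool.Agent.Helper82.FK
open Pool.Agent.Helper78.KD (Fam S)

theorem stmtX3u : StmtX3u := by
  intro u v a b β₁ β₂ hF φ K B hK hlip hbd t Λ ht L hL hb h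
  exact Pool.Agent.Helper44.KX.fam_upper hF hK hlip hbd ht hL hb h

theorem stmtX3l : StmtX3l := by
  intro u v a b β₁ β₂ hF φ K B hK hlip hbd t t₁ t₂ Λ Λ₁ Λ₂ h₁ h₂ ht ht₁ ht₁t ht₂ ht₂t L hL hge hle₁ hle₂ hc₁ hc₂ hI h hh
  exact Pool.Agent.Helper44.KX.fam_lower hF hK hlip hbd ht ht₁ ht₁t ht₂ ht₂t hL hge hle₁ hle₂ hc₁ hc₂ hI hh

theorem mult_upper_all_X2 (hX2 : StmtX2) {θ : ℝ} (hθ : 1 < θ) (htr : Transcendental ℤ θ) (H : ℕ) (c : ℤ → ℂ) (p : ℝ → ℝ)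
    (hp : ∀ t, gp H c t = p t) (hc0 : c 0 = 0) (A k : ℕ) :
    ∃ C δ₀ : ℝ, 0 < C ∧ 0 < δ₀ ∧ δ₀ ≤ 1 ∧ ∀ δ : ℝ, 0 < δ → δ ≤ δ₀ → ∀ t, 0 ≤ t → t ≤ A * δ → ∀ (s : ℕ → ℝ) (h : ℝ),
      dimH {x | ∃ᶠ N : ℕ in atTop, h * N ≤ Sm p θ s N x} ≤
        ENNReal.ofReal (1 - (t * h - lam p t - C * δ ^ k) / Real.log θ) :=
  mult_upper_all_of hX2 stmtX3u hθ htr H c p hp hc0 A k

theorem mult_lower_all_X2 (hX2 : StmtX2) {θ : ℝ} (hθ : 1 < θ) (htr : Transcendental ℤ θ) (H : ℕ) (c : ℤ → ℂ) (p : ℝ → ℝ)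
    (hp : ∀ t, gp H c t = p t) (hc0 : c 0 = 0) (A k : ℕ) (hA : 1 ≤ A) (hbd : ∀ t, |p t| ≤ A)
    (hV : 16 / (A : ℝ) ≤ ∫ t in (0 : ℝ)..1, (p t) ^ 2) :
    ∃ C δ₀ : ℝ, 0 < C ∧ 0 < δ₀ ∧ δ₀ ≤ 1 ∧ ∀ δ : ℝ, 0 < δ → δ ≤ δ₀ → ∀ (s : ℕ → ℝ) (h : ℝ), δ ≤ h → h ≤ 2 * δ → ∀ R : ℝ,
      (∀ t, 0 ≤ t → t ≤ A * δ → t * h - lam p t ≤ R) → ∀ O : Set ℝ, IsOpen O → O.Nonempty →
      ENNReal.ofReal (1 - (R + C * δ ^ k) / Real.log θ) ≤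
        dimH {x | x ∈ O ∧ ∀ᶠ N : ℕ in atTop, h * N ≤ Sm p θ s N x} :=
  mult_lower_all_of hX2 stmtX3l hθ htr H c p hp hc0 A k hA hbd hV

end Pool.Agent.Helper78.KX
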